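import Pool.Agent.Helper26.AF.Goals2

/-! # Project AF, packet KNU: the number of cores -/

set_option autoImplicit false

open Finset

namespace Pool.Agent.Helper57.AF

open Pool.Agent.Helper26.AF

/-- `N! ≤ (N)^j * (N - j)!` -/
theorem fac_le (a j : ℕ) : ((a + j).factorial : ℝ) ≤ ((a : ℝ) + j) ^ j * (a.factorial : ℝ) := by
  have h1 : (a + j).factorial = (a + j).descFactorial j * a.factorial := by
    have h2 := Nat.factorial_mul_descFactorial (n := a + j) (k := j) (Nat.le_add_left _ _)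
    rw [Nat.add_sub_cancel] at h2
    rw [← h2, mul_comm]
  have h3 : (a + j).descFactorial j ≤ (a + j) ^ j := Nat.descFactorial_le_pow _ _
  rw [h1]
  have h4 : (((a + j).descFactorial j * a.factorial : ℕ) : ℝ) ≤ (((a + j) ^ j * a.factorial : ℕ) : ℝ) := by
    exact_mod_cast Nat.mul_le_mul_right _ h3
  refine h4.trans (le_of_eq ?_)
  push_cast
  ring

/-- `(2 (b + j) - 1)!! ≥ c^j (2 b - 1)!!` if `c ≤ 2 b + 1` -/
theorem dfac_ge (b c : ℕ) (hb : 1 ≤ b) (hc : c ≤ 2 * b + 1) : ∀ j : ℕ,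
    c ^ j * Nat.doubleFactorial (2 * b - 1) ≤ Nat.doubleFactorial (2 * (b + j) - 1) := by
  intro j
  induction j with
  | zero => simp
  | succ j ih =>
    obtain ⟨d, hd⟩ : ∃ d, 2 * (b + j) - 1 = d ∧ 2 * (b + (j + 1)) - 1 = d + 2 :=
      ⟨2 * (b + j) - 1, rfl, by omega⟩
    rw [hd.2, Nat.doubleFactorial]
    rw [hd.1] at ih
    calc c ^ (j + 1) * Nat.doubleFactorial (2 * b - 1)
        = c * (c ^ j * Nat.doubleFactorial (2 * b - 1)) := by ring
      _ ≤ (d + 2) * Nat.doubleFactorial d := Nat.mul_le_mul (by omega) ih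

/-- the ratio of two consecutive kinds of terms -/
theorem term_le (s r j : ℕ) (hs : 1 ≤ s) (hr : 1 ≤ r) (hj : j < 2 * r) :
    ((s.choose (2 * r - j) : ℝ) * (Nat.doubleFactorial (2 * (2 * r - j) + 2 * r - 1) : ℝ) *
      (((s + r - 1).factorial : ℝ) / (((2 * r - j) + r - 1).factorial : ℝ)) *
      (1 / 6 : ℝ) ^ (2 * r - j) *
      (((2 * r - j : ℕ) : ℝ) ^ (2 * r - (2 * r - j)) / ((2 * r - (2 * r - j)).factorial : ℝ))) /
      (s.factorial : ℝ) ≤
    ee r / ((3 * r - 1).factorial : ℝ) * ((s : ℝ) + r) ^ (3 * r - 1) *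
      ((36 * (r : ℝ) ^ 2 / ((s : ℝ) + r)) ^ j / (j.factorial : ℝ)) := by
  obtain ⟨v, hv⟩ : ∃ v, v = 2 * r - j := ⟨_, rfl⟩
  have hv1 : 1 ≤ v := by omega
  have hvj : 2 * r - v = j := by omega
  rw [← hv, hvj]
  have hsr : (0 : ℝ) < (s : ℝ) + r := by positivity
  by_cases hvs : s < v
  · rw [Nat.choose_eq_zero_of_lt hvs]
    simp only [Nat.cast_zero, zero_mul, zero_div]
    unfold ee
    positivity
  push Not at hvs
  -- notation
  have f1 : (0 : ℝ) < (s.factorial : ℝ) := by exact_mod_cast s.factorial_pos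
  have f2 : (0 : ℝ) < (v.factorial : ℝ) := by exact_mod_cast v.factorial_pos
  have f3 : (0 : ℝ) < ((s - v).factorial : ℝ) := by exact_mod_cast (s - v).factorial_pos
  have f4 : (0 : ℝ) < ((v + r - 1).factorial : ℝ) := by exact_mod_cast (v + r - 1).factorial_pos
  have f5 : (0 : ℝ) < ((3 * r - 1).factorial : ℝ) := by exact_mod_cast (3 * r - 1).factorial_pos
  have f6 : (0 : ℝ) < (j.factorial : ℝ) := by exact_mod_cast j.factorial_pos
  have f7 : (0 : ℝ) < ((2 * r).factorial : ℝ) := by exact_mod_cast (2 * r).factorial_pos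
  have g1 : (s.choose v : ℝ) * (v.factorial : ℝ) * ((s - v).factorial : ℝ) = s.factorial := by
    exact_mod_cast Nat.choose_mul_factorial_mul_factorial hvs
  -- `(s + r - 1)! ≤ (s + r)^(v + r - 1) (s - v)!`
  have g2 : ((s + r - 1).factorial : ℝ) ≤ ((s : ℝ) + r) ^ (v + r - 1) * ((s - v).factorial : ℝ) := by
    have h1 := fac_le (s - v) (v + r - 1)
    have h2 : s - v + (v + r - 1) = s + r - 1 := by omega
    rw [h2] at h1
    refine h1.trans (mul_le_mul_of_nonneg_right (pow_le_pow_left₀ (by positivity) ?_ _) f3.le)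
    have h3 : (s - v) + (v + r - 1) ≤ s + r := by omega
    exact_mod_cast h3
  -- `(2r)! ≤ (2r)^j v!`
  have g3 : ((2 * r).factorial : ℝ) ≤ (2 * (r : ℝ)) ^ j * (v.factorial : ℝ) := by
    have h1 := fac_le v j
    have h2 : v + j = 2 * r := by omega
    rw [h2] at h1
    have h3 : (v : ℝ) + j = 2 * r := by exact_mod_cast h2
    rwa [h3] at h1
  -- `(3r-1)! ≤ (3r)^j (v+r-1)!`
  have g4 : ((3 * r - 1).factorial : ℝ) ≤ (3 * (r : ℝ)) ^ j * ((v + r - 1).factorial : ℝ) := by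
    have h1 := fac_le (v + r - 1) j
    have h2 : v + r - 1 + j = 3 * r - 1 := by omega
    rw [h2] at h1
    refine h1.trans (mul_le_mul_of_nonneg_right (pow_le_pow_left₀ (by positivity) ?_ _) f4.le)
    have h3 : (v + r - 1) + j ≤ 3 * r := by omega
    exact_mod_cast h3
  -- double factorials
  have g5 : (2 * (r : ℝ)) ^ j * (Nat.doubleFactorial (2 * v + 2 * r - 1) : ℝ) ≤
      (Nat.doubleFactorial (6 * r - 1) : ℝ) := by
    have h1 := dfac_ge (v + r) (2 * r) (by omega) (by omega) j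
    have h2 : 2 * (v + r) - 1 = 2 * v + 2 * r - 1 := by omega
    have h3 : 2 * (v + r + j) - 1 = 6 * r - 1 := by omega
    rw [h2, h3] at h1
    exact_mod_cast h1
  have g6 : (v : ℝ) ≤ 2 * r := by
    have : v ≤ 2 * r := by omega
    exact_mod_cast this
  set A := (Nat.doubleFactorial (2 * v + 2 * r - 1) : ℝ) with hA
  set D := (Nat.doubleFactorial (6 * r - 1) : ℝ) with hD
  have hr0 : (0 : ℝ) < r := by exact_mod_cast hr
  have hA0 : 0 ≤ A := Nat.cast_nonneg _
  have k1 : (s.choose v : ℝ) * A * (((s + r - 1).factorial : ℝ) / ((v + r - 1).factorial : ℝ)) *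
      (1 / 6 : ℝ) ^ v * ((v : ℝ) ^ j / (j.factorial : ℝ)) / (s.factorial : ℝ) =
      A * ((s + r - 1).factorial : ℝ) * (1 / 6 : ℝ) ^ v * (v : ℝ) ^ j /
        ((v.factorial : ℝ) * ((s - v).factorial : ℝ) * ((v + r - 1).factorial : ℝ) *
          (j.factorial : ℝ)) := by
    rw [← g1]
    have hc : (0 : ℝ) < (s.choose v : ℝ) := by exact_mod_cast Nat.choose_pos hvs
    field_simp
  rw [k1]
  have k2 : A * ((s + r - 1).factorial : ℝ) * (1 / 6 : ℝ) ^ v * (v : ℝ) ^ j /
        ((v.factorial : ℝ) * ((s - v).factorial : ℝ) * ((v + r - 1).factorial : ℝ) *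
          (j.factorial : ℝ)) ≤
      A * ((s : ℝ) + r) ^ (v + r - 1) * (1 / 6 : ℝ) ^ v * (2 * (r : ℝ)) ^ j /
        ((v.factorial : ℝ) * ((v + r - 1).factorial : ℝ) * (j.factorial : ℝ)) := by
    rw [div_le_div_iff₀ (by positivity) (by positivity)]
    have h1 : (v : ℝ) ^ j ≤ (2 * (r : ℝ)) ^ j := pow_le_pow_left₀ (by positivity) g6 _
    have h2 := mul_le_mul g2 h1 (by positivity) (by positivity)
    have h3 : 0 ≤ A * (1 / 6 : ℝ) ^ v * ((v.factorial : ℝ) * ((v + r - 1).factorial : ℝ) *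
      (j.factorial : ℝ)) := by positivity
    have h4 := mul_le_mul_of_nonneg_left h2 h3
    refine le_trans (le_of_eq ?_) (h4.trans (le_of_eq ?_)) <;> ring
  refine k2.trans ?_
  -- compare with `j = 0`
  unfold ee
  rw [← hD]
  have k3 : D / (((2 * r).factorial : ℝ) * 36 ^ r) / ((3 * r - 1).factorial : ℝ) *
      ((s : ℝ) + r) ^ (3 * r - 1) * ((36 * (r : ℝ) ^ 2 / ((s : ℝ) + r)) ^ j / (j.factorial : ℝ)) =
      D * ((s : ℝ) + r) ^ (v + r - 1) * (36 * (r : ℝ) ^ 2) ^ j /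
        (((2 * r).factorial : ℝ) * 36 ^ r * ((3 * r - 1).factorial : ℝ) * (j.factorial : ℝ)) := by
    have h1 : 3 * r - 1 = (v + r - 1) + j := by omega
    have h2 : ((s : ℝ) + r) ^ (3 * r - 1) = ((s : ℝ) + r) ^ (v + r - 1) * ((s : ℝ) + r) ^ j := by
      rw [← pow_add, ← h1]
    rw [h2, div_pow]
    field_simp
  rw [k3]
  have k4 : (36 : ℝ) ^ r = 6 ^ v * 6 ^ j := by
    rw [← pow_add]
    have h1 : v + j = 2 * r := by omega
    rw [h1, pow_mul]
    norm_num
  rw [k4, div_le_div_iff₀ (by positivity) (by positivity)]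
  have k5 : A * (2 * (r : ℝ)) ^ j * ((2 * r).factorial : ℝ) * ((3 * r - 1).factorial : ℝ) ≤
      D * ((2 * (r : ℝ)) ^ j * (v.factorial : ℝ)) * ((3 * (r : ℝ)) ^ j * ((v + r - 1).factorial : ℝ)) := by
    have h1 : A * (2 * (r : ℝ)) ^ j ≤ D := by rw [mul_comm]; exact g5
    have h2 := mul_le_mul h1 g3 f7.le (by positivity)
    exact mul_le_mul h2 g4 f5.le (by positivity)
  have h3 : 0 ≤ ((s : ℝ) + r) ^ (v + r - 1) * (6 : ℝ) ^ j * (j.factorial : ℝ) := by positivity
  have h4 := mul_le_mul_of_nonneg_left k5 h3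
  have h5 : (1 / 6 : ℝ) ^ v * 6 ^ v = 1 := by rw [← mul_pow]; norm_num
  have h6 : (36 * (r : ℝ) ^ 2) ^ j = (2 * (r : ℝ)) ^ j * (3 * (r : ℝ)) ^ j * 6 ^ j := by
    rw [← mul_pow, ← mul_pow]
    congr 1
    ring
  calc A * ((s : ℝ) + r) ^ (v + r - 1) * (1 / 6 : ℝ) ^ v * (2 * (r : ℝ)) ^ j *
        (((2 * r).factorial : ℝ) * (6 ^ v * 6 ^ j) * ((3 * r - 1).factorial : ℝ) * (j.factorial : ℝ))
      = ((s : ℝ) + r) ^ (v + r - 1) * (6 : ℝ) ^ j * (j.factorial : ℝ) *
        (A * (2 * (r : ℝ)) ^ j * ((2 * r).factorial : ℝ) * ((3 * r - 1).factorial : ℝ)) *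
        ((1 / 6 : ℝ) ^ v * 6 ^ v) := by ring
    _ ≤ ((s : ℝ) + r) ^ (v + r - 1) * (6 : ℝ) ^ j * (j.factorial : ℝ) *
        (D * ((2 * (r : ℝ)) ^ j * (v.factorial : ℝ)) *
          ((3 * (r : ℝ)) ^ j * ((v + r - 1).factorial : ℝ))) := by rw [h5, mul_one]; exact h4
    _ = _ := by rw [h6]; ring

theorem goalKNU (hKFO : StmtKFO) : StmtKNU := by
  intro s r hr hs
  have hsr : (0 : ℝ) < (s : ℝ) + r := by positivity
  have h1 := hKFO s r hr hs
  have f1 : (0 : ℝ) < (s.factorial : ℝ) := by exact_mod_cast s.factorial_pos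
  set x : ℝ := 36 * (r : ℝ) ^ 2 / ((s : ℝ) + r) with hx
  have hx0 : 0 ≤ x := by positivity
  set T : ℝ := ee r / ((3 * r - 1).factorial : ℝ) * ((s : ℝ) + r) ^ (3 * r - 1) with hT
  have hT0 : 0 ≤ T := by
    rw [hT]
    unfold ee
    positivity
  calc (Kc s r : ℝ) / (s.factorial : ℝ)
      ≤ (∑ v ∈ Icc 1 (2 * r), (s.choose v : ℝ) * (Nat.doubleFactorial (2 * v + 2 * r - 1) : ℝ) *
          (((s + r - 1).factorial : ℝ) / ((v + r - 1).factorial : ℝ)) * (1 / 6 : ℝ) ^ v *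
          ((v : ℝ) ^ (2 * r - v) / ((2 * r - v).factorial : ℝ))) / (s.factorial : ℝ) :=
        div_le_div_of_nonneg_right h1 f1.le
    _ = ∑ j ∈ range (2 * r), ((s.choose (2 * r - j) : ℝ) *
          (Nat.doubleFactorial (2 * (2 * r - j) + 2 * r - 1) : ℝ) *
          (((s + r - 1).factorial : ℝ) / (((2 * r - j) + r - 1).factorial : ℝ)) *
          (1 / 6 : ℝ) ^ (2 * r - j) *
          (((2 * r - j : ℕ) : ℝ) ^ (2 * r - (2 * r - j)) / ((2 * r - (2 * r - j)).factorial : ℝ))) /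
          (s.factorial : ℝ) := by
        rw [Finset.sum_div]
        refine Finset.sum_bij' (fun v _ => 2 * r - v) (fun j _ => 2 * r - j) ?_ ?_ ?_ ?_ ?_
        · intro v hv
          rw [mem_Icc] at hv
          rw [mem_range]
          omega
        · intro j hj
          rw [mem_range] at hj
          rw [mem_Icc]
          omega
        · intro v hv
          rw [mem_Icc] at hv
          omega
        · intro j hj
          rw [mem_range] at hj
          omega
        · intro v hv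
          rw [mem_Icc] at hv
          have h2 : 2 * r - (2 * r - v) = v := by omega
          rw [h2]
    _ ≤ ∑ j ∈ range (2 * r), T * (x ^ j / (j.factorial : ℝ)) := by
        refine sum_le_sum fun j hj => ?_
        rw [mem_range] at hj
        exact term_le s r j hs hr hj
    _ = T * ∑ j ∈ range (2 * r), x ^ j / (j.factorial : ℝ) := by rw [mul_sum]
    _ ≤ T * Real.exp x := mul_le_mul_of_nonneg_left (Real.sum_le_exp_of_nonneg hx0 _) hT0

end Pool.Agent.Helper57.AF
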