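import Pool.Agent.Helper26.AF.Goals
import Pool.Agent.Helper26.AF.Base

/-! # Project AF, packet TR1: monotone properties, `G(n,m)` versus `G(n,p)` -/

set_option autoImplicit false
set_option linter.unusedSectionVars false

open Finset

namespace Pool.Agent.Helper57.AF

open Pool.Agent.Helper26.AF

section up

variable {α : Type} [DecidableEq α]

open scoped Classical in
/-- number of the subsets of `U` of size `j` with the property `P` -/
noncomputable def aa (U : Finset α) (P : Finset α → Prop) (j : ℕ) : ℕ :=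
  #((U.powersetCard j).filter P)

/-- double counting -/
theorem aa_up (U : Finset α) (P : Finset α → Prop)
    (hP : ∀ T T', T ⊆ T' → T' ⊆ U → P T → P T') (j : ℕ) :
    aa U P j * (#U - j) ≤ aa U P (j + 1) * (j + 1) := by
  classical
  unfold aa
  refine Finset.card_mul_le_card_mul (fun T T' : Finset α => T ⊆ T') ?_ ?_
  · intro T hT
    rw [mem_filter, mem_powersetCard] at hT
    obtain ⟨⟨h1, h2⟩, h3⟩ := hT
    rw [← h2, ← card_sdiff_of_subset h1]
    refine Finset.card_le_card_of_injOn (fun e => insert e T) ?_ ?_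
    · intro e he
      rw [mem_coe, mem_sdiff] at he
      rw [mem_coe, bipartiteAbove, mem_filter, mem_filter, mem_powersetCard]
      have h4 : insert e T ⊆ U := insert_subset he.1 h1
      exact ⟨⟨⟨h4, by rw [card_insert_of_notMem he.2]⟩, hP T _ (subset_insert _ _) h4 h3⟩,
        subset_insert _ _⟩
    · intro e he e' he' h
      rw [mem_coe, mem_sdiff] at he he'
      have h5 : e ∈ insert e' T := by
        have h6 : e ∈ insert e T := mem_insert_self e T
        simp only at h
        rwa [h] at h6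
      rcases mem_insert.1 h5 with h6 | h6
      · exact h6
      · exact absurd h6 he.2
  · intro T' hT'
    rw [mem_filter, mem_powersetCard] at hT'
    obtain ⟨⟨h1, h2⟩, h3⟩ := hT'
    calc #(bipartiteBelow (fun T T' : Finset α => T ⊆ T') ((U.powersetCard j).filter P) T')
        ≤ #(T'.powersetCard j) := by
          refine card_le_card fun T hT => ?_
          rw [bipartiteBelow, mem_filter, mem_filter, mem_powersetCard] at hT
          exact mem_powersetCard.2 ⟨hT.2, hT.1.1.2⟩
      _ = j + 1 := by rw [card_powersetCard, h2, Nat.choose_succ_self_right]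

theorem aa_mono (U : Finset α) (P : Finset α → Prop)
    (hP : ∀ T T', T ⊆ T' → T' ⊆ U → P T → P T') {m j : ℕ} (hmj : m ≤ j) (hj : j ≤ #U) :
    (aa U P m : ℝ) / (#U).choose m ≤ (aa U P j : ℝ) / (#U).choose j := by
  induction j, hmj using Nat.le_induction with
  | base => exact le_refl _
  | succ j hmj ih =>
    refine (ih (by omega)).trans ?_
    have h1 : (0 : ℝ) < (#U).choose j := by exact_mod_cast Nat.choose_pos (by omega)
    have h2 : (0 : ℝ) < (#U).choose (j + 1) := by exact_mod_cast Nat.choose_pos hj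
    rw [div_le_div_iff₀ h1 h2]
    have h3 := aa_up U P hP j
    have h4 : (#U).choose (j + 1) * (j + 1) = (#U).choose j * (#U - j) :=
      Nat.choose_succ_right_eq _ _
    have h5 : aa U P j * (#U).choose (j + 1) * (j + 1) ≤ aa U P (j + 1) * (#U).choose j * (j + 1) := by
      calc aa U P j * (#U).choose (j + 1) * (j + 1)
          = aa U P j * ((#U).choose (j + 1) * (j + 1)) := by ring
        _ = (aa U P j * (#U - j)) * (#U).choose j := by rw [h4]; ring
        _ ≤ (aa U P (j + 1) * (j + 1)) * (#U).choose j := Nat.mul_le_mul_right _ h3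
        _ = _ := by ring
    have h6 := Nat.le_of_mul_le_mul_right h5 (Nat.succ_pos j)
    exact_mod_cast h6

theorem aa_le (U : Finset α) (P : Finset α → Prop) (j : ℕ) : aa U P j ≤ (#U).choose j := by
  classical
  unfold aa
  rw [← card_powersetCard]
  exact card_le_card (filter_subset _ _)

theorem aa_true (U : Finset α) (P : Finset α → Prop) (j : ℕ)
    (h : ∀ T ⊆ U, #T = j → P T) : aa U P j = (#U).choose j := by
  classical
  unfold aa
  rw [← card_powersetCard]
  congr 1
  rw [filter_eq_self]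
  intro T hT
  rw [mem_powersetCard] at hT
  exact h T hT.1 hT.2

theorem aa_false (U : Finset α) (P : Finset α → Prop) (j : ℕ)
    (h : ∀ T ⊆ U, #T = j → ¬ P T) : aa U P j = 0 := by
  classical
  unfold aa
  rw [card_eq_zero, filter_eq_empty_iff]
  intro T hT
  rw [mem_powersetCard] at hT
  exact h T hT.1 hT.2

end up

variable {n : ℕ}

theorem card_EVn : #(EV (Fin n)) = n.choose 2 := by
  rw [card_EV, Fintype.card_fin]

theorem nat_card_eq (m : ℕ) (P : SimpleGraph (Fin n) → Prop) :
    Nat.card {G : SimpleGraph (Fin n) // ne G = m ∧ P G} =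
      aa (EV (Fin n)) (fun T => P (SimpleGraph.fromEdgeSet (T : Set (Sym2 (Fin n))))) m := by
  classical
  unfold aa
  rw [Nat.card_eq_fintype_card, Fintype.card_subtype]
  refine Finset.card_bij' (fun G _ => G.edgeFinset)
    (fun T _ => SimpleGraph.fromEdgeSet (T : Set (Sym2 (Fin n)))) ?_ ?_ ?_ ?_
  · intro G hG
    rw [mem_filter] at hG
    rw [mem_filter, mem_powersetCard]
    have h1 : ne G = #G.edgeFinset := by
      rw [ne, Nat.card_eq_fintype_card, SimpleGraph.card_edgeSet]
    refine ⟨⟨fun e he => mem_EV.2 (G.not_isDiag_of_mem_edgeFinset he), h1 ▸ hG.2.1⟩, ?_⟩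
    simpa using hG.2.2
  · intro T hT
    rw [mem_filter, mem_powersetCard] at hT
    rw [mem_filter]
    refine ⟨mem_univ _, ?_, hT.2⟩
    rw [ne_fromEdgeSet hT.1.1]
    exact hT.1.2
  · intro G _
    simp
  · intro T hT
    rw [mem_filter, mem_powersetCard] at hT
    ext e
    simp only [SimpleGraph.edgeFinset, Set.mem_toFinset]
    rw [edgeSet_fromEdgeSet_of_subset hT.1.1]
    simp

theorem prm_eq (m : ℕ) (P : SimpleGraph (Fin n) → Prop) :
    prm n m P = (aa (EV (Fin n)) (fun T => P (SimpleGraph.fromEdgeSet (T : Set (Sym2 (Fin n))))) m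
      : ℝ) / ((#(EV (Fin n))).choose m : ℕ) := by
  unfold prm
  rw [nat_card_eq]
  congr 1
  have h1 : Nat.card {G : SimpleGraph (Fin n) // ne G = m} =
      Nat.card {G : SimpleGraph (Fin n) // ne G = m ∧ True} := by simp
  rw [h1, nat_card_eq m (fun _ => True), aa_true _ _ _ (fun _ _ _ => trivial)]

theorem Pr_eq (p : ℝ) (P : SimpleGraph (Fin n) → Prop) :
    Pr p P = ∑ j ∈ range (#(EV (Fin n)) + 1), p ^ j * (1 - p) ^ (#(EV (Fin n)) - j) *
      (aa (EV (Fin n)) (fun T => P (SimpleGraph.fromEdgeSet (T : Set (Sym2 (Fin n))))) j : ℝ) := by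
  classical
  unfold Pr
  rw [EE_eq, ← card_EV, Finset.sum_powerset]
  refine sum_congr rfl fun j _ => ?_
  unfold aa
  rw [card_filter, Nat.cast_sum, mul_sum]
  refine sum_congr rfl fun T hT => ?_
  rw [mem_powersetCard] at hT
  rw [hT.2]
  push_cast
  congr 1

theorem goalTR1 : StmtTR1 := by
  intro n m p P hP h0 h1 hm
  classical
  set U := EV (Fin n) with hU
  set P' : Finset (Sym2 (Fin n)) → Prop := fun T =>
    P (SimpleGraph.fromEdgeSet (T : Set (Sym2 (Fin n)))) with hP'
  have hmU : m ≤ #U := by rw [hU, card_EVn]; exact hm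
  have hmono : ∀ T T', T ⊆ T' → T' ⊆ U → P' T → P' T' := by
    intro T T' hT _ h
    exact hP _ _ (SimpleGraph.fromEdgeSet_mono (by exact_mod_cast hT)) h
  set w : ℕ → ℝ := fun j => p ^ j * (1 - p) ^ (#U - j) with hw
  have hw0 : ∀ j, 0 ≤ w j := fun j => mul_nonneg (pow_nonneg h0 _) (pow_nonneg (by linarith) _)
  have hr : ∀ j ∈ range (#U + 1), (aa U P' j : ℝ) =
      (aa U P' j : ℝ) / (#U).choose j * (#U).choose j := by
    intro j hj
    rw [mem_range] at hj
    have h2 : (0 : ℝ) < (#U).choose j := by exact_mod_cast Nat.choose_pos (by omega)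
    field_simp
  have hsum1 : ∑ j ∈ range (#U + 1), w j * ((#U).choose j : ℝ) = 1 := by
    have h2 := Pr_eq (n := n) p (fun _ => True)
    have h3 : Pr (V := Fin n) p (fun _ => True) = 1 := by
      unfold Pr
      simp only [if_true]
      exact EE_one p
    rw [h3] at h2
    rw [h2]
    refine sum_congr rfl fun j _ => ?_
    rw [aa_true _ _ _ (fun _ _ _ => trivial)]
  have e1 : prm n m P = (aa U P' m : ℝ) / ((#U).choose m : ℕ) := prm_eq m P
  have e2 : Pr p P = ∑ j ∈ range (#U + 1), w j * (aa U P' j : ℝ) := Pr_eq p P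
  set Q1 : Finset (Sym2 (Fin n)) → Prop := fun T =>
    m ≤ ne (SimpleGraph.fromEdgeSet (T : Set (Sym2 (Fin n)))) with hQ1
  set Q2 : Finset (Sym2 (Fin n)) → Prop := fun T =>
    m < ne (SimpleGraph.fromEdgeSet (T : Set (Sym2 (Fin n)))) with hQ2
  have e3 : Pr p (fun G : SimpleGraph (Fin n) => m ≤ ne G) =
      ∑ j ∈ range (#U + 1), w j * (aa U Q1 j : ℝ) := Pr_eq p _
  have e4 : Pr p (fun G : SimpleGraph (Fin n) => m < ne G) =
      ∑ j ∈ range (#U + 1), w j * (aa U Q2 j : ℝ) := Pr_eq p _
  have q1 : ∀ j, m ≤ j → aa U Q1 j = (#U).choose j := fun j hj =>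
    aa_true U Q1 j fun T hT hTj => by
      show m ≤ ne (SimpleGraph.fromEdgeSet (T : Set (Sym2 (Fin n))))
      rw [ne_fromEdgeSet hT, hTj]
      exact hj
  have q1' : ∀ j, ¬ m ≤ j → aa U Q1 j = 0 := fun j hj =>
    aa_false U Q1 j fun T hT hTj => by
      show ¬ m ≤ ne (SimpleGraph.fromEdgeSet (T : Set (Sym2 (Fin n))))
      rw [ne_fromEdgeSet hT, hTj]
      exact hj
  have q2 : ∀ j, m < j → aa U Q2 j = (#U).choose j := fun j hj =>
    aa_true U Q2 j fun T hT hTj => by
      show m < ne (SimpleGraph.fromEdgeSet (T : Set (Sym2 (Fin n))))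
      rw [ne_fromEdgeSet hT, hTj]
      exact hj
  have q2' : ∀ j, ¬ m < j → aa U Q2 j = 0 := fun j hj =>
    aa_false U Q2 j fun T hT hTj => by
      show ¬ m < ne (SimpleGraph.fromEdgeSet (T : Set (Sym2 (Fin n))))
      rw [ne_fromEdgeSet hT, hTj]
      exact hj
  constructor
  · rw [e1, e2, e3, mul_sum]
    refine sum_le_sum fun j hj => ?_
    have hjU : j ≤ #U := by rw [mem_range] at hj; omega
    by_cases hjm : m ≤ j
    · rw [q1 j hjm, hr j hj]
      have h2 := aa_mono U P' hmono hjm hjU
      have h3 : 0 ≤ w j * ((#U).choose j : ℝ) := mul_nonneg (hw0 j) (Nat.cast_nonneg _)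
      calc (aa U P' m : ℝ) / (#U).choose m * (w j * ((#U).choose j : ℝ))
          ≤ (aa U P' j : ℝ) / (#U).choose j * (w j * ((#U).choose j : ℝ)) :=
            mul_le_mul_of_nonneg_right h2 h3
        _ = _ := by ring
    · rw [q1' j hjm, Nat.cast_zero, mul_zero, mul_zero]
      exact mul_nonneg (hw0 j) (Nat.cast_nonneg _)
  · rw [e1, e2, e4]
    have h2 : (aa U P' m : ℝ) / (#U).choose m =
        ∑ j ∈ range (#U + 1), (aa U P' m : ℝ) / (#U).choose m * (w j * ((#U).choose j : ℝ)) := by
      rw [← mul_sum, hsum1, mul_one]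
    have h3 : ∑ j ∈ range (#U + 1), w j * (aa U P' j : ℝ) ≤
        ∑ j ∈ range (#U + 1), ((aa U P' m : ℝ) / (#U).choose m * (w j * ((#U).choose j : ℝ)) +
          w j * (aa U Q2 j : ℝ)) := by
      refine sum_le_sum fun j hj => ?_
      have hjU : j ≤ #U := by rw [mem_range] at hj; omega
      have h4 : 0 ≤ w j * ((#U).choose j : ℝ) := mul_nonneg (hw0 j) (Nat.cast_nonneg _)
      by_cases hjm : m < j
      · rw [q2 j hjm]
        have h5 : (aa U P' j : ℝ) ≤ (#U).choose j := by exact_mod_cast aa_le U P' j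
        have h6 := mul_le_mul_of_nonneg_left h5 (hw0 j)
        have h7 : 0 ≤ (aa U P' m : ℝ) / (#U).choose m * (w j * ((#U).choose j : ℝ)) :=
          mul_nonneg (by positivity) h4
        linarith
      · rw [q2' j hjm, hr j hj, Nat.cast_zero, mul_zero, add_zero]
        have h5 := aa_mono U P' hmono (not_lt.1 hjm) hmU
        calc w j * ((aa U P' j : ℝ) / (#U).choose j * (#U).choose j)
            = (aa U P' j : ℝ) / (#U).choose j * (w j * ((#U).choose j : ℝ)) := by ring
          _ ≤ _ := mul_le_mul_of_nonneg_right h5 h4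
    rw [sum_add_distrib, ← h2] at h3
    exact h3

end Pool.Agent.Helper57.AF
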