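import Pool.Agent.Helper26.AF.Goals

/-! # Project AF, packet TUPC: number of tuples of disjoint sets -/

set_option autoImplicit false

open Finset

namespace Pool.Agent.Helper57.AF

open scoped Classical in
/-- tuples of pairwise disjoint subsets of `U` with given sizes -/
noncomputable def TF {n : ℕ} (q : ℕ) (j : Fin q → ℕ) (U : Finset (Fin n)) :
    Finset (Fin q → Finset (Fin n)) :=
  univ.filter fun Q => (∀ a b, a ≠ b → Disjoint (Q a) (Q b)) ∧ ∀ a, Q a ⊆ U ∧ #(Q a) = j a

theorem mem_TF {n q : ℕ} {j : Fin q → ℕ} {U : Finset (Fin n)} {Q : Fin q → Finset (Fin n)} :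
    Q ∈ TF q j U ↔ (∀ a b, a ≠ b → Disjoint (Q a) (Q b)) ∧ ∀ a, Q a ⊆ U ∧ #(Q a) = j a := by
  simp [TF]

theorem TF_succ {n q : ℕ} (j : Fin (q + 1) → ℕ) (U : Finset (Fin n)) :
    #(TF (q + 1) j U) = ∑ S ∈ U.powersetCard (j 0), #(TF q (fun a => j a.succ) (U \ S)) := by
  classical
  rw [Finset.card_eq_sum_card_fiberwise (f := fun Q : Fin (q + 1) → Finset (Fin n) => Q 0)
    (t := U.powersetCard (j 0))]
  · refine sum_congr rfl fun S hS => ?_
    rw [mem_powersetCard] at hS
    refine Finset.card_nbij' (fun Q a => Q a.succ) (fun Q' => Fin.cons S Q') ?_ ?_ ?_ ?_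
    · intro Q hQ
      rw [mem_coe, mem_filter, mem_TF] at hQ
      obtain ⟨⟨h1, h2⟩, h3⟩ := hQ
      rw [mem_coe, mem_TF]
      refine ⟨fun a b hab => h1 _ _ (fun h => hab (Fin.succ_injective _ h)), fun a => ⟨?_, (h2 _).2⟩⟩
      intro x hx
      rw [mem_sdiff]
      refine ⟨(h2 a.succ).1 hx, fun hxS => ?_⟩
      rw [← h3] at hxS
      exact (Finset.disjoint_left.1 (h1 a.succ 0 (Fin.succ_ne_zero a))) hx hxS
    · intro Q' hQ'
      rw [mem_coe, mem_TF] at hQ'
      obtain ⟨h1, h2⟩ := hQ'
      rw [mem_coe, mem_filter, mem_TF]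
      refine ⟨⟨?_, ?_⟩, rfl⟩
      · intro a b hab
        induction a using Fin.cases with
        | zero =>
          induction b using Fin.cases with
          | zero => exact absurd rfl hab
          | succ b =>
            simp only [Fin.cons_zero, Fin.cons_succ]
            refine Finset.disjoint_left.2 fun x hx hxb => ?_
            exact (mem_sdiff.1 ((h2 b).1 hxb)).2 hx
        | succ a =>
          induction b using Fin.cases with
          | zero =>
            simp only [Fin.cons_zero, Fin.cons_succ]
            refine Finset.disjoint_left.2 fun x hx hxb => ?_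
            exact (mem_sdiff.1 ((h2 a).1 hx)).2 hxb
          | succ b =>
            simp only [Fin.cons_succ]
            exact h1 a b fun h => hab (congrArg Fin.succ h)
      · intro a
        induction a using Fin.cases with
        | zero => exact hS
        | succ a => exact ⟨(h2 a).1.trans sdiff_subset, (h2 a).2⟩
    · intro Q hQ
      rw [mem_coe, mem_filter] at hQ
      funext a
      induction a using Fin.cases with
      | zero => exact hQ.2.symm
      | succ a => rfl
    · intro Q' _
      rfl
  · intro Q hQ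
    rw [mem_coe, mem_TF] at hQ
    rw [mem_coe, mem_powersetCard]
    exact hQ.2 0

theorem TF_card {n : ℕ} : ∀ (q : ℕ) (j : Fin q → ℕ) (U : Finset (Fin n)),
    #(TF q j U) * ∏ a, (j a).factorial = (#U).descFactorial (∑ a, j a) := by
  intro q
  induction q with
  | zero =>
    intro j U
    have h1 : TF 0 j U = univ := by
      ext Q
      simp only [mem_TF, mem_univ, iff_true]
      exact ⟨fun a => a.elim0, fun a => a.elim0⟩
    rw [h1]
    simp
  | succ q ih =>
    intro j U
    rw [TF_succ, Fin.prod_univ_succ, Fin.sum_univ_succ, Finset.sum_mul]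
    have h1 : ∀ S ∈ U.powersetCard (j 0), #(TF q (fun a => j a.succ) (U \ S)) *
        ((j 0).factorial * ∏ a : Fin q, (j a.succ).factorial) =
        (j 0).factorial * (#U - j 0).descFactorial (∑ a : Fin q, j a.succ) := by
      intro S hS
      rw [mem_powersetCard] at hS
      have h2 := ih (fun a => j a.succ) (U \ S)
      rw [card_sdiff_of_subset hS.1, hS.2] at h2
      rw [← h2]
      ring
    rw [Finset.sum_congr rfl h1, sum_const, card_powersetCard, smul_eq_mul, ← mul_assoc,
      mul_comm ((#U).choose (j 0)), ← Nat.descFactorial_eq_factorial_mul_choose]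
    have h3 := Nat.descFactorial_mul_descFactorial (n := #U) (k := j 0)
      (m := j 0 + ∑ a : Fin q, j a.succ) (Nat.le_add_right _ _)
    rw [Nat.add_sub_cancel_left] at h3
    rw [← h3, mul_comm]

theorem goalTUPC : Pool.Agent.Helper26.AF.StmtTUPC := by
  intro n q j
  have h1 := TF_card (n := n) q j univ
  rw [card_univ, Fintype.card_fin] at h1
  rw [← h1]
  congr 1
  classical
  rw [Nat.card_eq_fintype_card, Fintype.card_subtype]
  congr 1
  ext Q
  simp [mem_TF]

end Pool.Agent.Helper57.AF
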