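import Pool.Agent.Helper26.AF.Goals
import Pool.Agent.Helper26.AF.Base

/-! # Project AF, packet TR: transfer from `G(n,m)` to `G(n,p)` -/

set_option autoImplicit false

open Finset Filter Topology

namespace Pool.Agent.Helper57.AF

open Pool.Agent.Helper26.AF

theorem prm_le_one (n m : ℕ) (P : SimpleGraph (Fin n) → Prop) : prm n m P ≤ 1 := by
  unfold prm
  refine div_le_one_of_le₀ ?_ (Nat.cast_nonneg _)
  have h1 : Nat.card {G : SimpleGraph (Fin n) // ne G = m ∧ P G} ≤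
      Nat.card {G : SimpleGraph (Fin n) // ne G = m} :=
    Nat.card_le_card_of_injective (fun G => ⟨G.1, G.2.1⟩) (fun G G' h => by
      have h2 := congrArg Subtype.val h
      exact Subtype.ext h2)
  exact_mod_cast h1

/-- the number of pairs, with `u = n^(1/3)` -/
theorem choose_eq {n : ℕ} {u : ℝ} (hu : u ^ 3 = n) :
    ((n.choose 2 : ℕ) : ℝ) = u ^ 3 * (u ^ 3 - 1) / 2 := by
  rw [Nat.cast_choose_two, hu]

theorem pc_facts {l' u ε : ℝ} {n : ℕ} (hu : u ^ 3 = n) (hun : (n : ℝ) ^ ((1 : ℝ) / 3) = u)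
    (h4 : 4 ≤ u) (hl : |l'| ≤ u) (hε : 16 / ε ≤ u) (he : 0 < ε) :
    0 ≤ pc l' n ∧ pc l' n ≤ 1 ∧
    pc l' n * ((n.choose 2 : ℕ) : ℝ) = (u ^ 3 - 1 + l' * u ^ 2 - l' / u) / 2 ∧
    pc l' n * ((n.choose 2 : ℕ) : ℝ) / (u ^ 2 / 4) ^ 2 ≤ ε := by
  have hu0 : 0 < u := by linarith
  have hl1 : -1 ≤ l' / u := by
    rw [le_div_iff₀ hu0]
    linarith [(abs_le.1 hl).1]
  have hl2 : l' / u ≤ 1 := by
    rw [div_le_iff₀ hu0]
    linarith [(abs_le.1 hl).2]
  have hp : pc l' n = (1 + l' / u) / u ^ 3 := by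
    unfold pc
    rw [hun, hu]
  have hu3 : 64 ≤ u ^ 3 := by
    calc (64 : ℝ) = 4 ^ 3 := by norm_num
      _ ≤ u ^ 3 := pow_le_pow_left₀ (by norm_num) h4 3
  have hN : pc l' n * ((n.choose 2 : ℕ) : ℝ) = (1 + l' / u) * (u ^ 3 - 1) / 2 := by
    rw [hp, choose_eq hu]
    field_simp
  refine ⟨?_, ?_, ?_, ?_⟩
  · rw [hp]
    exact div_nonneg (by linarith) (by positivity)
  · rw [hp, div_le_one (by positivity)]
    linarith
  · rw [hN]
    field_simp
    ring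
  · rw [hN]
    have h5 : (1 + l' / u) * (u ^ 3 - 1) / 2 ≤ u ^ 3 := by
      nlinarith only [hl1, hl2, hu3]
    rw [div_le_iff₀ (by positivity)]
    have h6 : 16 ≤ ε * u := by
      rw [div_le_iff₀ he] at hε
      linarith
    calc (1 + l' / u) * (u ^ 3 - 1) / 2 ≤ u ^ 3 := h5
      _ = 16 * (u ^ 3 / 16) := by ring
      _ ≤ (ε * u) * (u ^ 3 / 16) := mul_le_mul_of_nonneg_right h6 (by positivity)
      _ = ε * (u ^ 2 / 4) ^ 2 := by ring

theorem goalTR (hTR1 : StmtTR1) (hCHE : StmtCHE) : StmtTR := by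
  intro l m hm P hP ε hε
  have hu : Tendsto (fun n : ℕ => (n : ℝ) ^ ((1 : ℝ) / 3)) atTop atTop :=
    (tendsto_rpow_atTop (by norm_num)).comp tendsto_natCast_atTop_atTop
  have hm' : ∀ᶠ n : ℕ in atTop, |((m n : ℝ) - n / 2) / (n : ℝ) ^ ((2 : ℝ) / 3) - l / 2| ≤ 1 / 16 := by
    have h1 := Metric.tendsto_nhds.1 hm (1 / 16) (by norm_num)
    filter_upwards [h1] with n hn
    rw [Real.dist_eq] at hn
    exact hn.le
  filter_upwards [hm', hu.eventually_ge_atTop (max (max 4 (|l| + 1)) (16 / ε))] with n hmn hun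
  obtain ⟨u, hu1⟩ : ∃ u : ℝ, (n : ℝ) ^ ((1 : ℝ) / 3) = u := ⟨_, rfl⟩
  rw [hu1] at hun
  have h4 : 4 ≤ u := (le_max_left _ _).trans ((le_max_left _ _).trans hun)
  have hl : |l| + 1 ≤ u := (le_max_right _ _).trans ((le_max_left _ _).trans hun)
  have hεu : 16 / ε ≤ u := (le_max_right _ _).trans hun
  have hu0 : 0 < u := by linarith
  have hn0 : (0 : ℝ) ≤ n := Nat.cast_nonneg _
  have hu3 : u ^ 3 = n := by
    rw [← hu1, ← Real.rpow_natCast, ← Real.rpow_mul hn0]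
    norm_num
  have hu2 : (n : ℝ) ^ ((2 : ℝ) / 3) = u ^ 2 := by
    rw [← hu1, ← Real.rpow_natCast, ← Real.rpow_mul hn0]
    norm_num
  rw [hu2, ← hu3] at hmn
  have hmb : |(m n : ℝ) - u ^ 3 / 2 - l / 2 * u ^ 2| ≤ u ^ 2 / 16 := by
    have h5 : ((m n : ℝ) - u ^ 3 / 2) / u ^ 2 - l / 2 =
        ((m n : ℝ) - u ^ 3 / 2 - l / 2 * u ^ 2) / u ^ 2 := by
      field_simp
    rw [h5, abs_div, abs_of_pos (by positivity : (0 : ℝ) < u ^ 2), div_le_iff₀ (by positivity)] at hmn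
    linarith
  obtain ⟨hm1, hm2⟩ := abs_le.1 hmb
  have hlu := abs_le.1 (by linarith : |l| ≤ u)
  have hl1 : |l + 1| ≤ u := by
    have := abs_add_le l 1
    rw [abs_one] at this
    linarith
  have hl2 : |l - 1| ≤ u := by
    have := abs_sub l 1
    rw [abs_one] at this
    linarith
  obtain ⟨a1, a2, a3, a4⟩ := pc_facts hu3 hu1 h4 hl1 hεu hε
  obtain ⟨b1, b2, b3, b4⟩ := pc_facts hu3 hu1 h4 hl2 hεu hε
  have hl1' := abs_le.1 hl1
  have hl2' := abs_le.1 hl2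
  have d1 : (l + 1) / u ≤ 1 := by rw [div_le_iff₀ hu0]; linarith
  have d2 : -1 ≤ (l - 1) / u := by rw [le_div_iff₀ hu0]; linarith
  have hu16 : 16 ≤ u ^ 2 := by nlinarith only [h4]
  have hmle : m n ≤ n.choose 2 := by
    have h5 : (m n : ℝ) ≤ ((n.choose 2 : ℕ) : ℝ) := by
      rw [choose_eq hu3]
      have h6 : (m n : ℝ) ≤ u ^ 3 / 2 + l / 2 * u ^ 2 + u ^ 2 / 16 := by linarith
      have h7 : l * u ^ 2 ≤ u * u ^ 2 := mul_le_mul_of_nonneg_right hlu.2 (by positivity)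
      have h8 : u ^ 2 ≤ u ^ 3 := by nlinarith only [h4, hu16]
      have h9 : 64 ≤ u ^ 3 := by nlinarith only [h4, hu16]
      nlinarith only [h6, h7, h8, h9]
    exact_mod_cast h5
  obtain ⟨c1, -⟩ := hTR1 n (m n) (pc (l + 1) n) (P n) (hP n) a1 a2 hmle
  obtain ⟨-, c2⟩ := hTR1 n (m n) (pc (l - 1) n) (P n) (hP n) b1 b2 hmle
  have t0 : (0 : ℝ) < u ^ 2 / 4 := by positivity
  constructor
  · have e1 := hCHE n (pc (l + 1) n) (u ^ 2 / 4) a1 a2 t0
    have e2 : Pr (pc (l + 1) n) (fun G : SimpleGraph (Fin n) => ¬ m n ≤ ne G) ≤ ε := by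
      refine le_trans (Pr_mono a1 a2 fun G hG => ?_) (e1.trans a4)
      push Not at hG
      have h5 : (ne G : ℝ) < m n := by exact_mod_cast hG
      rw [a3, le_abs]
      right
      linarith
    have e3 := Pr_compl (V := Fin n) (pc (l + 1) n) (fun G => m n ≤ ne G)
    have e4 : 0 ≤ prm n (m n) (P n) := by unfold prm; positivity
    have e5 := prm_le_one n (m n) (P n)
    nlinarith only [c1, e2, e3, e4, e5, hε]
  · have e1 := hCHE n (pc (l - 1) n) (u ^ 2 / 4) b1 b2 t0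
    have e2 : Pr (pc (l - 1) n) (fun G : SimpleGraph (Fin n) => m n < ne G) ≤ ε := by
      refine le_trans (Pr_mono b1 b2 fun G hG => ?_) (e1.trans b4)
      have h5 : (m n : ℝ) < ne G := by exact_mod_cast hG
      rw [b3, le_abs]
      left
      linarith
    linarith

end Pool.Agent.Helper57.AF
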